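import Pool.Agent.H332R2.CastLem

/-!
# Hankel matrices of Bernoulli numbers modulo `p`
-/

set_option autoImplicit false

namespace Pool.Agent.Q39.HB

open Finset PowerSeries Pool.Agent.H332R2

variable {p : ℕ} [hp : Fact p.Prime]

/-- the exponential series modulo `p` (truncated) -/
noncomputable def Ex (p : ℕ) [Fact p.Prime] : (ZMod p)⟦X⟧ :=
  PowerSeries.mk fun k => ((k.factorial : ℕ) : ZMod p)⁻¹

/-- the series of the `B_k / k!` modulo `p` -/
noncomputable def Cs (p : ℕ) [Fact p.Prime] : (ZMod p)⟦X⟧ := PowerSeries.mk fun k => cc p k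

/-- the series of the `(1 - 2^k) B_k / k!` modulo `p` -/
noncomputable def Gs (p : ℕ) [Fact p.Prime] : (ZMod p)⟦X⟧ := Cs p - rescale 2 (Cs p)

lemma coeff_Ex (k : ℕ) : coeff k (Ex p) = ((k.factorial : ℕ) : ZMod p)⁻¹ := by
  unfold Ex; rw [coeff_mk]

lemma coeff_Gs (k : ℕ) : coeff k (Gs p) = (1 - 2 ^ k) * cc p k := by
  unfold Gs Cs
  rw [map_sub, coeff_rescale, coeff_mk]
  ring

lemma rec_C : (X : (ZMod p)⟦X⟧) ^ p ∣ Cs p * (Ex p - 1) - X := by
  rw [X_pow_dvd_iff]
  intro m hm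
  rw [map_sub, coeff_mul, Finset.Nat.sum_antidiagonal_eq_sum_range_succ_mk,
    Finset.sum_range_succ, Nat.sub_self]
  have h0 : coeff 0 (Ex p - 1) = (0 : ZMod p) := by
    rw [map_sub, coeff_Ex]; simp
  simp only [h0, mul_zero, add_zero]
  have h1 : ∀ k ∈ range m, coeff k (Cs p) * coeff (m - k) (Ex p - 1) =
      cc p k * (((m - k).factorial : ℕ) : ZMod p)⁻¹ := by
    intro k hk
    rw [mem_range] at hk
    unfold Cs
    rw [coeff_mk, map_sub, coeff_Ex, coeff_one, if_neg (by omega), sub_zero]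
  rw [Finset.sum_congr rfl h1, coeff_X]
  rcases Nat.lt_or_ge m 2 with h | h
  · interval_cases m
    · simp
    · simp [cc_zero]
  · rw [cc_rec h (by omega), if_neg (by omega), sub_zero]

lemma Ex_sq : (X : (ZMod p)⟦X⟧) ^ p ∣ rescale 2 (Ex p) - Ex p * Ex p := by
  rw [X_pow_dvd_iff]
  intro m hm
  rw [map_sub, coeff_rescale, coeff_mul, coeff_Ex, sub_eq_zero]
  have h1 : ∀ x ∈ antidiagonal m, coeff x.1 (Ex p) * coeff x.2 (Ex p) =
      ((m.factorial : ℕ) : ZMod p)⁻¹ * (m.choose x.1 : ℕ) := by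
    intro x hx
    rw [Finset.HasAntidiagonal.mem_antidiagonal] at hx
    rw [coeff_Ex, coeff_Ex]
    have e1 := fact_ne_zero (p := p) (k := x.1) (by omega)
    have e2 := fact_ne_zero (p := p) (k := x.2) (by omega)
    have e3 := fact_ne_zero (p := p) (k := m) hm
    have e4 : m.choose x.1 * x.1.factorial * x.2.factorial = m.factorial := by
      have := Nat.choose_mul_factorial_mul_factorial (n := m) (k := x.1) (by omega)
      rwa [show m - x.1 = x.2 by omega] at this
    have e5 : ((m.choose x.1 : ℕ) : ZMod p) * (x.1.factorial : ℕ) * (x.2.factorial : ℕ) =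
        (m.factorial : ℕ) := by exact_mod_cast congrArg (fun n : ℕ => (n : ZMod p)) e4
    rw [← e5] at e3 ⊢
    field_simp
    rw [div_self (by
      intro h; apply e3; rw [h]; ring)]
  rw [Finset.sum_congr rfl h1, ← Finset.mul_sum,
    Finset.Nat.sum_antidiagonal_eq_sum_range_succ_mk]
  have h2 := Nat.sum_range_choose m
  have h3 : ((∑ k ∈ range (m + 1), m.choose k : ℕ) : ZMod p) = 2 ^ m := by
    rw [h2]; push_cast; rfl
  push_cast at h3
  rw [h3]
  ring

lemma Ex_sub_one : ∃ u : (ZMod p)⟦X⟧, IsUnit u ∧ Ex p - 1 = X * u := by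
  have h : (X : (ZMod p)⟦X⟧) ∣ Ex p - 1 := by
    rw [X_dvd_iff, ← coeff_zero_eq_constantCoeff_apply, map_sub, coeff_Ex]
    simp
  obtain ⟨u, hu⟩ := h
  refine ⟨u, ?_, hu⟩
  rw [isUnit_iff_constantCoeff]
  have h1 : coeff 1 (Ex p - 1) = (1 : ZMod p) := by
    rw [map_sub, coeff_Ex, coeff_one]; simp
  rw [hu, show (1 : ℕ) = 0 + 1 from rfl, coeff_succ_X_mul, coeff_zero_eq_constantCoeff_apply] at h1
  rw [h1]
  exact isUnit_one

/-- `(e^x + 1) G = x` up to the order `p - 1` -/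
lemma rec_G : (X : (ZMod p)⟦X⟧) ^ (p - 1) ∣ (Ex p + 1) * Gs p - X := by
  obtain ⟨u, hu, hE⟩ := Ex_sub_one (p := p)
  have h1 := rec_C (p := p)
  have h2 : (X : (ZMod p)⟦X⟧) ^ p ∣ rescale 2 (Cs p * (Ex p - 1) - X) := by
    rw [X_pow_dvd_iff] at h1 ⊢
    intro m hm
    rw [coeff_rescale, h1 m hm, mul_zero]
  have h22 : (2 : (ZMod p)⟦X⟧) = C 2 := by
    rw [show (2 : ZMod p) = 1 + 1 by norm_num, map_add, map_one]; norm_num
  have hX2 : rescale (2 : ZMod p) (X : (ZMod p)⟦X⟧) = 2 * X := by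
    ext n
    rw [h22, coeff_rescale, coeff_X, coeff_C_mul, coeff_X]
    by_cases h : n = 1
    · subst h
      simp
    · rw [if_neg h, mul_zero, mul_zero]
  rw [map_sub, map_mul, map_sub, map_one, hX2] at h2
  have h3 := Ex_sq (p := p)
  have h4 : (X : (ZMod p)⟦X⟧) ^ p ∣ (Ex p - 1) * ((Ex p + 1) * Gs p - X) := by
    have e : (Ex p - 1) * ((Ex p + 1) * Gs p - X) =
        (Ex p + 1) * (Cs p * (Ex p - 1) - X) - (rescale 2 (Cs p) * (rescale 2 (Ex p) - 1) - 2 * X) +
        rescale 2 (Cs p) * (rescale 2 (Ex p) - Ex p * Ex p) := by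
      unfold Gs
      ring
    rw [e]
    exact dvd_add (dvd_sub (Dvd.dvd.mul_left h1 _) h2) (Dvd.dvd.mul_left h3 _)
  rw [hE] at h4
  have hp1 : p = (p - 1) + 1 := by have := hp.out.two_le; omega
  have h5 : (X : (ZMod p)⟦X⟧) * X ^ (p - 1) ∣ X * (u * ((Ex p + 1) * Gs p - X)) := by
    rw [← pow_succ', ← hp1]
    have : X * (u * ((Ex p + 1) * Gs p - X)) = X * u * ((Ex p + 1) * Gs p - X) := by ring
    rw [this]
    exact h4
  have h6 := (mul_dvd_mul_iff_left (a := (X : (ZMod p)⟦X⟧)) X_ne_zero).1 h5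
  exact (hu.dvd_mul_left).1 h6

lemma dEx : (X : (ZMod p)⟦X⟧) ^ (p - 1) ∣ derivative (ZMod p) (Ex p) - Ex p := by
  rw [X_pow_dvd_iff]
  intro m hm
  rw [map_sub, coeff_derivative, coeff_Ex, coeff_Ex, sub_eq_zero, Nat.factorial_succ]
  have e1 := fact_ne_zero (p := p) (k := m) (by omega)
  have e2 := nat_ne_zero (p := p) (k := m + 1) (by omega) (by omega)
  push_cast at e2 ⊢
  field_simp

lemma X_pow_dvd_derivative (f : (ZMod p)⟦X⟧) (M : ℕ) (h : (X : (ZMod p)⟦X⟧) ^ (M + 1) ∣ f) :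
    (X : (ZMod p)⟦X⟧) ^ M ∣ derivative (ZMod p) f := by
  rw [X_pow_dvd_iff] at h ⊢
  intro m hm
  rw [coeff_derivative, h (m + 1) (by omega), zero_mul]

/-- the operator `P ↦ P + P'` -/
noncomputable def TT (P : Polynomial (ZMod p)) : Polynomial (ZMod p) := P + Polynomial.derivative P

lemma TT_ne_zero (P : Polynomial (ZMod p)) (hP : P ≠ 0) : TT P ≠ 0 := by
  intro h
  unfold TT at h
  have h1 := Polynomial.degree_derivative_lt hP
  have h2 := Polynomial.degree_add_eq_left_of_degree_lt h1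
  rw [h, Polynomial.degree_zero] at h2
  exact hP (Polynomial.degree_eq_bot.1 h2.symm)

lemma TT_iter_ne_zero (P : Polynomial (ZMod p)) (hP : P ≠ 0) (j : ℕ) : TT^[j] P ≠ 0 := by
  induction j with
  | zero => exact hP
  | succ j ih => rw [Function.iterate_succ_apply']; exact TT_ne_zero _ ih

lemma TT_natDegree (P : Polynomial (ZMod p)) (a : ℕ) (h : P.natDegree ≤ a) : (TT P).natDegree ≤ a := by
  unfold TT
  refine (Polynomial.natDegree_add_le _ _).trans (max_le h ?_)
  exact (Polynomial.natDegree_derivative_le P).trans (by omega)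

lemma TT_iter_natDegree (P : Polynomial (ZMod p)) (a : ℕ) (h : P.natDegree ≤ a) (j : ℕ) :
    (TT^[j] P).natDegree ≤ a := by
  induction j with
  | zero => exact h
  | succ j ih => rw [Function.iterate_succ_apply']; exact TT_natDegree _ a ih

/-- uniqueness of Padé approximants of `e^x` modulo `p` -/
theorem pade (a M : ℕ) (hM : 2 * a + 2 ≤ M) (hMp : M + 1 ≤ p) (P Q : Polynomial (ZMod p))
    (hP : P.natDegree ≤ a) (hQ : Q.natDegree ≤ a)
    (h : (X : (ZMod p)⟦X⟧) ^ M ∣ Ex p * (P : (ZMod p)⟦X⟧) + (Q : (ZMod p)⟦X⟧)) : P = 0 ∧ Q = 0 := by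
  have key : ∀ j, j ≤ M → (X : (ZMod p)⟦X⟧) ^ (M - j) ∣
      Ex p * ((TT^[j] P : Polynomial (ZMod p)) : (ZMod p)⟦X⟧) +
        ((Polynomial.derivative^[j] Q : Polynomial (ZMod p)) : (ZMod p)⟦X⟧) := by
    intro j
    induction j with
    | zero => intro _; simpa using h
    | succ j ih =>
      intro hj
      have h1 := ih (by omega)
      rw [show M - j = (M - (j + 1)) + 1 by omega] at h1
      have h2 := X_pow_dvd_derivative _ _ h1
      rw [map_add, Derivation.leibniz, smul_eq_mul, smul_eq_mul, derivative_coe, derivative_coe] at h2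
      have h3 : (X : (ZMod p)⟦X⟧) ^ (M - (j + 1)) ∣ derivative (ZMod p) (Ex p) - Ex p :=
        (pow_dvd_pow _ (by omega)).trans dEx
      rw [Function.iterate_succ_apply', Function.iterate_succ_apply']
      have e : Ex p * ((TT (TT^[j] P) : Polynomial (ZMod p)) : (ZMod p)⟦X⟧) +
          ((Polynomial.derivative (Polynomial.derivative^[j] Q) : Polynomial (ZMod p)) : (ZMod p)⟦X⟧) =
          (Ex p * ((Polynomial.derivative (TT^[j] P) : Polynomial (ZMod p)) : (ZMod p)⟦X⟧) +
            ((TT^[j] P : Polynomial (ZMod p)) : (ZMod p)⟦X⟧) * derivative (ZMod p) (Ex p) +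
            ((Polynomial.derivative (Polynomial.derivative^[j] Q) : Polynomial (ZMod p)) :
              (ZMod p)⟦X⟧)) -
          ((TT^[j] P : Polynomial (ZMod p)) : (ZMod p)⟦X⟧) * (derivative (ZMod p) (Ex p) - Ex p) := by
        unfold TT
        rw [Polynomial.coe_add]
        ring
      rw [e]
      exact dvd_sub h2 (Dvd.dvd.mul_left h3 _)
  have hPz : P = 0 := by
    by_contra hP0
    have h1 := key (a + 1) (by omega)
    have hD : Polynomial.derivative^[a + 1] Q = 0 :=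
      Polynomial.iterate_derivative_eq_zero (by omega)
    rw [hD, Polynomial.coe_zero, add_zero] at h1
    have hu : IsUnit (Ex p) := by
      rw [isUnit_iff_constantCoeff, ← coeff_zero_eq_constantCoeff_apply, coeff_Ex]
      simp
    have h2 := (hu.dvd_mul_left).1 h1
    rw [X_pow_dvd_iff] at h2
    apply TT_iter_ne_zero P hP0 (a + 1)
    ext m
    rw [Polynomial.coeff_zero]
    by_cases hm : m < M - (a + 1)
    · have := h2 m hm
      rwa [Polynomial.coeff_coe] at this
    · exact Polynomial.coeff_eq_zero_of_natDegree_lt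
        (lt_of_le_of_lt (TT_iter_natDegree P a hP (a + 1)) (by omega))
  refine ⟨hPz, ?_⟩
  rw [hPz, Polynomial.coe_zero, mul_zero, zero_add, X_pow_dvd_iff] at h
  ext m
  rw [Polynomial.coeff_zero]
  by_cases hm : m < M
  · have := h m hm
    rwa [Polynomial.coeff_coe] at this
  · exact Polynomial.coeff_eq_zero_of_natDegree_lt (by omega)

end Pool.Agent.Q39.HB
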