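import Pool.Agent.Q39.HB.Core

/-!
# Hankel determinants of `(1 - 4^k) B_{2k} / (2k)!` modulo `p`
-/

set_option autoImplicit false

namespace Pool.Agent.Q39.HB

open Finset PowerSeries Pool.Agent.H332R2

variable {p : ℕ} [hp : Fact p.Prime]

/-- `(1 - 4^k) B_{2k} / (2k)!` modulo `p` -/
noncomputable def gg (p : ℕ) [Fact p.Prime] (k : ℕ) : ZMod p := (1 - 4 ^ k) * cc p (2 * k)

/-- the series of the `gg p k`, in `X^2` -/
noncomputable def F2 (p : ℕ) [Fact p.Prime] : (ZMod p)⟦X⟧ := Gs p - C (2⁻¹ : ZMod p) * X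

lemma cc_one (h3 : 3 ≤ p) : cc p 1 = -(2⁻¹ : ZMod p) := by
  have h := cc_rec (p := p) (m := 2) le_rfl (by omega)
  rw [Finset.sum_range_succ, Finset.sum_range_one, cc_zero] at h
  simp at h
  linear_combination h

lemma coeff_F2_even (k : ℕ) : coeff (2 * k) (F2 p) = gg p k := by
  unfold F2 gg
  rw [map_sub, coeff_Gs, coeff_C_mul, coeff_X, if_neg (by omega), mul_zero, sub_zero, pow_mul]
  norm_num

lemma coeff_F2_odd (h3 : 3 ≤ p) (k : ℕ) : coeff (2 * k + 1) (F2 p) = 0 := by
  unfold F2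
  rw [map_sub, coeff_Gs, coeff_C_mul, coeff_X]
  rcases Nat.eq_zero_or_pos k with h | h
  · subst h
    simp only [mul_zero, zero_add, pow_one, if_true, mul_one]
    rw [cc_one h3]
    ring
  · rw [if_neg (by omega)]
    have hb : bernoulli (2 * k + 1) = 0 := bernoulli_eq_zero_of_odd ⟨k, rfl⟩ (by omega)
    unfold cc
    rw [hb]
    simp

/-- **The Hankel matrix is invertible modulo `p`.** -/
theorem hankel (c n : ℕ) (hc1 : 1 ≤ c) (hc2 : c ≤ 2) (hn : 1 ≤ n) (hM : 4 * n + 2 * c ≤ p + 1)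
    (v : Fin n → ZMod p) (hv : ∀ i : Fin n, ∑ j : Fin n, gg p (c + i + j) * v j = 0) : v = 0 := by
  have h3 : 3 ≤ p := by omega
  have h2 : (2 : ZMod p) ≠ 0 := by
    have := nat_ne_zero (p := p) (k := 2) (by omega) (by omega)
    exact_mod_cast this
  set V : Polynomial (ZMod p) := ∑ j : Fin n, Polynomial.C (v j) * Polynomial.X ^ (2 * (n - 1 - (j : ℕ)))
    with hV
  have hVcoe : (V : (ZMod p)⟦X⟧) = ∑ j : Fin n, C (v j) * X ^ (2 * (n - 1 - (j : ℕ))) := by
    rw [hV, ← Polynomial.coeToPowerSeries.ringHom_apply, map_sum]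
    refine Finset.sum_congr rfl fun j _ => ?_
    rw [map_mul, map_pow]
    simp
  set W : (ZMod p)⟦X⟧ := (V : (ZMod p)⟦X⟧) * F2 p with hW
  have hWc : ∀ m, coeff m W = ∑ j : Fin n, v j *
      (if 2 * (n - 1 - (j : ℕ)) ≤ m then coeff (m - 2 * (n - 1 - (j : ℕ))) (F2 p) else 0) := by
    intro m
    rw [hW, hVcoe, Finset.sum_mul, map_sum]
    refine Finset.sum_congr rfl fun j _ => ?_
    rw [mul_assoc, coeff_C_mul, coeff_X_pow_mul']
  have hWodd : ∀ s, coeff (2 * s + 1) W = 0 := by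
    intro s
    rw [hWc]
    refine Finset.sum_eq_zero fun j _ => ?_
    split_ifs with h
    · rw [show 2 * s + 1 - 2 * (n - 1 - (j : ℕ)) = 2 * (s - (n - 1 - (j : ℕ))) + 1 by omega,
        coeff_F2_odd h3, mul_zero]
    · rw [mul_zero]
  have hWeven : ∀ s, n - 1 + c ≤ s → s < 2 * n - 1 + c → coeff (2 * s) W = 0 := by
    intro s hs1 hs2
    have h1 := hv ⟨s - (n - 1 + c), by omega⟩
    rw [hWc, ← h1]
    refine Finset.sum_congr rfl fun j _ => ?_
    have hj := j.2
    rw [if_pos (by omega), show 2 * s - 2 * (n - 1 - (j : ℕ)) =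
      2 * (c + (s - (n - 1 + c)) + (j : ℕ)) by omega, coeff_F2_even, mul_comm]
  set U : Polynomial (ZMod p) := trunc (2 * n + c - 1) W with hU
  have hUd : U.natDegree ≤ 2 * n + c - 2 := by
    have h6 : U.natDegree < 2 * n + c - 2 + 1 := by
      have h7 := natDegree_trunc_lt W (2 * n + c - 2)
      rw [hU, show 2 * n + c - 1 = 2 * n + c - 2 + 1 by omega]
      exact h7
    omega
  have hWU : (X : (ZMod p)⟦X⟧) ^ (4 * n + 2 * c - 2) ∣ W - (U : (ZMod p)⟦X⟧) := by
    rw [X_pow_dvd_iff]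
    intro m hm
    rw [map_sub, Polynomial.coeff_coe, hU, coeff_trunc]
    split_ifs with h
    · rw [sub_self]
    · rw [sub_zero]
      rcases Nat.even_or_odd' m with ⟨s, hs | hs⟩
      · rw [hs]
        exact hWeven s (by omega) (by omega)
      · rw [hs]; exact hWodd s
  obtain ⟨h', hh'⟩ : ∃ h' : ZMod p, h' = 2⁻¹ := ⟨_, rfl⟩
  have h22 : 2 * h' = 1 := by rw [hh']; exact mul_inv_cancel₀ h2
  have hbig : (X : (ZMod p)⟦X⟧) ^ (4 * n + 2 * c - 2) ∣ (Ex p + 1) * F2 p +
      C h' * X * (Ex p - 1) := by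
    have e : (Ex p + 1) * F2 p + C h' * X * (Ex p - 1) = ((Ex p + 1) * Gs p - X) := by
      have e2 : (2 : (ZMod p)⟦X⟧) * C h' = 1 := by
        rw [show (2 : (ZMod p)⟦X⟧) = C 2 by
          rw [show (2 : ZMod p) = 1 + 1 by norm_num, map_add, map_one]; norm_num, ← map_mul, h22, map_one]
      unfold F2
      rw [← hh']
      linear_combination (-X : (ZMod p)⟦X⟧) * e2
    rw [e]
    exact (pow_dvd_pow _ (by omega)).trans rec_G
  have hmain := pade (2 * n + c - 2) (4 * n + 2 * c - 2) (by omega) (by omega)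
    (U + Polynomial.C h' * Polynomial.X * V) (U - Polynomial.C h' * Polynomial.X * V)
    (by
      refine (Polynomial.natDegree_add_le _ _).trans (max_le hUd ?_)
      refine Polynomial.natDegree_mul_le.trans ?_
      have h4 : (Polynomial.C h' * Polynomial.X).natDegree ≤ 1 :=
        (Polynomial.natDegree_C_mul_le _ _).trans Polynomial.natDegree_X_le
      have h5 : V.natDegree ≤ 2 * (n - 1) := by
        rw [hV]
        refine Polynomial.natDegree_sum_le_of_forall_le _ _ fun j _ => ?_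
        refine (Polynomial.natDegree_C_mul_X_pow_le _ _).trans (by omega)
      omega)
    (by
      refine (Polynomial.natDegree_sub_le _ _).trans (max_le hUd ?_)
      refine Polynomial.natDegree_mul_le.trans ?_
      have h4 : (Polynomial.C h' * Polynomial.X).natDegree ≤ 1 :=
        (Polynomial.natDegree_C_mul_le _ _).trans Polynomial.natDegree_X_le
      have h5 : V.natDegree ≤ 2 * (n - 1) := by
        rw [hV]
        refine Polynomial.natDegree_sum_le_of_forall_le _ _ fun j _ => ?_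
        refine (Polynomial.natDegree_C_mul_X_pow_le _ _).trans (by omega)
      omega)
    (by
      have e : Ex p * ((U + Polynomial.C h' * Polynomial.X * V : Polynomial (ZMod p)) : (ZMod p)⟦X⟧) +
          ((U - Polynomial.C h' * Polynomial.X * V : Polynomial (ZMod p)) : (ZMod p)⟦X⟧) =
          (V : (ZMod p)⟦X⟧) * ((Ex p + 1) * F2 p + C h' * X * (Ex p - 1)) -
            (Ex p + 1) * (W - (U : (ZMod p)⟦X⟧)) := by
        rw [hW, Polynomial.coe_add, Polynomial.coe_sub, Polynomial.coe_mul, Polynomial.coe_mul,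
          Polynomial.coe_C, Polynomial.coe_X]
        ring
      rw [e]
      exact dvd_sub (Dvd.dvd.mul_left hbig _) (Dvd.dvd.mul_left hWU _))
  have hVz : V = 0 := by
    have e1 : Polynomial.X * V = 0 := by
      have e2 : (2 : Polynomial (ZMod p)) * Polynomial.C h' = 1 := by
        rw [show (2 : Polynomial (ZMod p)) = Polynomial.C 2 by
          rw [show (2 : ZMod p) = 1 + 1 by norm_num, map_add, map_one]; norm_num, ← map_mul, h22,
          map_one]
      have e3 : Polynomial.X * V = (U + Polynomial.C h' * Polynomial.X * V) -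
          (U - Polynomial.C h' * Polynomial.X * V) := by
        linear_combination (-Polynomial.X * V) * e2
      rw [e3, hmain.1, hmain.2, sub_zero]
    exact (mul_eq_zero.1 e1).resolve_left Polynomial.X_ne_zero
  funext j
  have h5 : V.coeff (2 * (n - 1 - (j : ℕ))) = v j := by
    rw [hV, Polynomial.finsetSum_coeff, Finset.sum_eq_single j]
    · rw [Polynomial.coeff_C_mul, Polynomial.coeff_X_pow, if_pos rfl, mul_one]
    · intro i _ hij
      rw [Polynomial.coeff_C_mul, Polynomial.coeff_X_pow, if_neg, mul_zero]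
      intro h
      apply hij
      have hi := i.2
      have hj := j.2
      ext
      omega
    · intro h; exact absurd (Finset.mem_univ _) h
  rw [← h5, hVz]
  simp

lemma gg_ne_zero_iff {k : ℕ} (hk : 2 * k + 2 ≤ p) (h3 : 3 ≤ p) (h : gg p k ≠ 0) :
    ¬ ((p : ℤ) ∣ (bernoulli (2 * k)).num) ∧ ¬ (p ∣ 4 ^ k - 1) := by
  unfold gg at h
  refine ⟨fun h1 => h ?_, fun h1 => h ?_⟩
  · rw [(cc_eq_zero_iff hk h3).2 h1, mul_zero]
  · have h4 : ((4 ^ k - 1 : ℕ) : ZMod p) = 0 := (ZMod.natCast_eq_zero_iff _ _).2 h1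
    rw [Nat.cast_sub (Nat.one_le_pow _ _ (by norm_num))] at h4
    push_cast at h4
    rw [show (1 : ZMod p) - 4 ^ k = -(4 ^ k - 1) by ring, h4]
    simp

/-- **Permutations avoiding irregular indices.** -/
theorem perm (c n : ℕ) (hc1 : 1 ≤ c) (hc2 : c ≤ 2) (hM : 4 * n + 2 * c ≤ p + 1) :
    ∃ σ : Equiv.Perm (Fin n), ∀ i : Fin n,
      ¬ ((p : ℤ) ∣ (bernoulli (2 * (c + i + σ i))).num) ∧ ¬ (p ∣ 4 ^ (c + (i : ℕ) + (σ i : ℕ)) - 1) := by
  rcases Nat.eq_zero_or_pos n with h0 | hn
  · subst h0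
    exact ⟨Equiv.refl _, fun i => i.elim0⟩
  have h3 : 3 ≤ p := by omega
  set H : Matrix (Fin n) (Fin n) (ZMod p) := Matrix.of fun i j => gg p (c + i + j) with hH
  have hdet : H.det ≠ 0 := by
    intro h
    obtain ⟨v, hv0, hv⟩ := Matrix.exists_mulVec_eq_zero_iff.2 h
    apply hv0
    refine hankel c n hc1 hc2 hn hM v fun i => ?_
    have := congrFun hv i
    simpa [Matrix.mulVec, dotProduct, hH] using this
  rw [Matrix.det_apply] at hdet
  obtain ⟨σ, _, hσ⟩ := Finset.exists_ne_zero_of_sum_ne_zero hdet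
  refine ⟨σ, fun i => ?_⟩
  have h1 : ∏ i, H (σ i) i ≠ 0 := by
    intro h
    apply hσ
    rw [h, smul_zero]
  have h2 := Finset.prod_ne_zero_iff.1 h1 i (Finset.mem_univ _)
  have h4 : H (σ i) i = gg p (c + i + σ i) := by
    rw [hH, Matrix.of_apply]
    congr 1
    omega
  rw [h4] at h2
  have := i.2
  have := (σ i).2
  exact gg_ne_zero_iff (by omega) h3 h2

end Pool.Agent.Q39.HB
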